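import Pool.Agent.Lib.UMB.Defs

set_option autoImplicit false

/-!
# UMB: the interface between sections 1 - 9 and section S

`AF g a`: the hypotheses on the metric. `TwoNonneg g k x`: the traces of `k` over the planes at `x` are nonnegative.
`Adm g k a K η η0 R0 δ`: smooth `k` with errors. The output of sections 1 - 9 is `core'` in `Asm/Core.lean`.
-/

open Filter Topology Set MeasureTheory
open scoped ContDiff

namespace UMB

open Pool.Agent.Lib.PenroseSph (E3 Tens pd trg energy momNorm trLevel meanCurv admFlux)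

/-- The metric part of `Data`. -/
structure AF (g : Tens) (a : ℝ) : Prop where
  lt : a < 1
  smooth : ∀ i j, ContDiffOn ℝ ∞ (fun x => g x i j) {x : E3 | a < ‖x‖}
  symm : ∀ x : E3, a < ‖x‖ → (g x).IsSymm
  pos : ∀ x : E3, a < ‖x‖ → ∀ v : Fin 3 → ℝ, v ≠ 0 → 0 < quad g x v
  decay : ∃ C : ℝ, ∀ x : E3, 1 ≤ ‖x‖ → ∀ i j k,
    |g x i j - (1 : Matrix (Fin 3) (Fin 3) ℝ) i j| ≤ C / ‖x‖ ∧ |pd k (fun y => g y i j) x| ≤ C / ‖x‖ ^ 2

/-- The traces of `k` over the tangent planes at `x` are nonnegative. -/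
def TwoNonneg (g k : Tens) (x : E3) : Prop := ∀ v : Fin 3 → ℝ, 0 ≤ trg g k x * quad g x v - quad k x v

/-- The integral of `|tr_S k|` over the coordinate sphere of radius `r` (flat surface measure). -/
noncomputable def trFlux (g k : Tens) (r : ℝ) : ℝ :=
  ∫ n : Metric.sphere (0 : E3) 1, r ^ 2 * |sphTr g k (r • (n : E3))| ∂(volume : Measure E3).toSphere

/-- Admissible tensors with errors: `k` is smooth, symmetric, `|k| ≤ K/|x|²`, plane traces nonnegative, dominant energy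
condition up to the error `η`, horizon condition up to the error `η0`, and `∫_{S_r} |tr_S k| ≤ δ` for `r ≥ R0`. -/
structure Adm (g k : Tens) (a K : ℝ) (η : E3 → ℝ) (η0 R0 δ : ℝ) : Prop where
  smooth : ∀ i j, ContDiffOn ℝ ∞ (fun x => k x i j) {x : E3 | a < ‖x‖}
  symm : ∀ x : E3, a < ‖x‖ → (k x).IsSymm
  bound : ∀ x : E3, 1 ≤ ‖x‖ → ∀ i j, |k x i j| ≤ K / ‖x‖ ^ 2
  two : ∀ x : E3, 1 ≤ ‖x‖ → TwoNonneg g k x
  cont_err : ContinuousOn η {x : E3 | 1 ≤ ‖x‖}
  err_nonneg : ∀ x : E3, 1 ≤ ‖x‖ → 0 ≤ η x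
  err0_nonneg : 0 ≤ η0
  dec : ∀ x : E3, 1 ≤ ‖x‖ → momNorm g k x ≤ energy g k x + η x
  horizon : ∀ x : E3, ‖x‖ = 1 → meanCurv g (fun y => ‖y‖) x ≤ sphTr g k x + η0
  flux : ∀ r : ℝ, R0 ≤ r → trFlux g k r ≤ δ

end UMB
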