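import Pool.Agent.Lib.UMB.Core
import Pool.Agent.Lib.UMB.S1.Defs
import Pool.Agent.Lib.UMB.W.EDefs

set_option autoImplicit false

/-!
# UMB: parameters of the flow and the concrete operator (S4.md, 4.0)

`Par` collects the parameters. The operator is the one of `Op.lean` for the metric `gh = χ g + (1 - χ) δ` (equal to `g` for
`|x| ≤ 3R1/2` and flat for `|x| ≥ 2R1`), its Christoffel symbols, the tensor `kh = χ_k k` (equal to `k` for `|x| ≤ R1`, zero
for `|x| ≥ 5R1/4`) and the exponent `p = 1 + b`, `b = q` for `z ≥ 2 v1`, `b = 1` for `z ≤ v1`. So where `p = 2` the equation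
is `Δ_gh v + (tr_gh kh) n . dv = 0` (divergence form), and `v` is flat harmonic for `|x| ≥ 2R1`.
-/

open Filter Topology Set MeasureTheory
open scoped ContDiff

namespace UMB

open Pool.Agent.Lib.PenroseSph (E3 Tens pd chr trg gradNorm meanCurv)

/-- Parameters: metric `g` and tensor `k` smooth on `{a < |x|}`, exponent `p0 = 1 + q`, radii `r1` (barriers), `R1`
(the equation is the full one for `|x| ≤ R1`), `R` (outer radius), regularisation `eps`, mollifier `eta` at scale `d`. -/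
structure Par where
  g : Tens
  k : Tens
  a : ℝ
  q : ℝ
  r1 : ℝ
  R1 : ℝ
  R : ℝ
  eps : ℝ
  d : ℝ
  eta : E3 → ℝ

namespace Par

/-- Cut-off for the metric: `1` for `r ≤ 3R1/2`, `0` for `r ≥ 2R1`. -/
noncomputable def chi (P : Par) (r : ℝ) : ℝ := Real.smoothTransition (4 - 2 * (r / P.R1))

/-- Cut-off for `k`: `1` for `r ≤ R1`, `0` for `r ≥ 5R1/4`. -/
noncomputable def chk (P : Par) (r : ℝ) : ℝ := Real.smoothTransition (5 - 4 * (r / P.R1))

/-- The metric of the operator. -/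
noncomputable def gh (P : Par) : Tens := fun x => P.chi ‖x‖ • P.g x + (1 - P.chi ‖x‖) • (1 : Matrix (Fin 3) (Fin 3) ℝ)

/-- The tensor of the operator. -/
noncomputable def kh (P : Par) : Tens := fun x => P.chk ‖x‖ • P.k x

/-- The transition level. -/
noncomputable def v1 (P : Par) : ℝ := min 1 ((2 * P.r1 / P.R1) ^ (P.q / 2))

/-- `b = q` for `z ≥ 2 v1`, `b = 1` for `z ≤ v1`. -/
noncomputable def b (P : Par) (z : ℝ) : ℝ := P.q + (1 - P.q) * Real.smoothTransition ((2 * P.v1 - z) / P.v1)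

/-- The exponent as a function of the value. -/
noncomputable def p (P : Par) (z : ℝ) : ℝ := 1 + P.b z

/-- The concrete operator. -/
noncomputable def op (P : Par) : OpData where
  a := max P.a 0
  R := P.R
  p0 := 1 + P.q
  eps := P.eps
  d := P.d
  G := fun x => (P.gh x)⁻¹
  k := P.kh
  Gam := fun i x => Matrix.of fun k l => chr P.gh i k l x
  p := P.p
  eta := P.eta

/-- Admissible parameters (for a metric `g` with `AF g a` and `|k| ≤ K/|x|²`): ranges only. -/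
structure Ok (P : Par) : Prop where
  q_pos : 0 < P.q
  q_lt : P.q < 1
  r1_ge : 1 ≤ P.r1
  R1_ge : 4 * P.r1 ≤ P.R1
  R_ge : 8 * P.R1 ≤ P.R
  eps_pos : 0 < P.eps
  eps_le : P.eps ≤ 1
  d_pos : 0 < P.d
  d_le : P.d ≤ 1
  eta_smooth : ContDiff ℝ ∞ P.eta
  eta_nonneg : ∀ x, 0 ≤ P.eta x
  eta_supp : ∀ x : E3, 1 ≤ ‖x‖ → P.eta x = 0
  eta_int : ∫ x : E3, P.eta x = 1

/-- The spherical mean of `v` over the sphere of radius `r`. -/
noncomputable def mean (v : E3 → ℝ) (r : ℝ) : ℝ :=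
  (1 / (4 * Real.pi)) * ∫ n : Metric.sphere (0 : E3) 1, v (r • (n : E3)) ∂(volume : Measure E3).toSphere

/-- The harmonic constant: `mean v r = Cv (1/r - 1/R)` for `2R1 ≤ r ≤ R`. -/
noncomputable def Cv (P : Par) (v : E3 → ℝ) : ℝ := mean v (2 * P.R1) / (1 / (2 * P.R1) - 1 / P.R)

/-- `κ = Cv / R`. -/
noncomputable def kap (P : Par) (v : E3 → ℝ) : ℝ := P.Cv v / P.R

/-- The denominator `w(z) = κ + ∫_0^z γ`. -/
noncomputable def ww (P : Par) (v : E3 → ℝ) (z : ℝ) : ℝ := W.KK P.p z + P.kap v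

/-- `F(z)`. -/
noncomputable def F (P : Par) (v : E3 → ℝ) (z : ℝ) : ℝ := W.FF P.p (P.kap v) z

/-- `θ = F(v)`. -/
noncomputable def th (P : Par) (v : E3 → ℝ) : E3 → ℝ := W.theta P.p (P.kap v) v

/-- The value of `θ` on the outer sphere. -/
noncomputable def T (P : Par) (v : E3 → ℝ) : ℝ := P.F v 0

/-- The beginning and the end of the transition window. -/
noncomputable def T1 (P : Par) (v : E3 → ℝ) : ℝ := P.F v (2 * P.v1)

noncomputable def T2 (P : Par) (v : E3 → ℝ) : ℝ := P.F v P.v1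

/-- The effective constant `C = R e^{-T}` (`e^θ ~ r / C` at infinity). -/
noncomputable def CC (P : Par) (v : E3 → ℝ) : ℝ := P.R * Real.exp (-P.T v)

/-- `C_* = e^{-F(v1)} / (v1 + κ)`, so `e^{-θ} = C_* (v + κ)` where `v ≤ v1`. -/
noncomputable def Cst (P : Par) (v : E3 → ℝ) : ℝ := Real.exp (-P.F v P.v1) / (P.v1 + P.kap v)

/-- `y = |∇θ|_g`. -/
noncomputable def y (P : Par) (v : E3 → ℝ) (x : E3) : ℝ := yreg P.g (P.th v) 0 x

/-- `|dv|_eps = sqrt (|dv|_g² + eps²)`. -/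
noncomputable def gv (P : Par) (v : E3 → ℝ) (x : E3) : ℝ := Real.sqrt (gsq P.g v x + P.eps ^ 2)

/-- `s = e^θ |F'| |dv|_eps`. -/
noncomputable def s (P : Par) (v : E3 → ℝ) (x : E3) : ℝ := Real.exp (P.th v x) / P.ww v (v x) * P.gv v x

/-- The energy `D = ∫ e^θ |Mh|² / y`. -/
noncomputable def D (P : Par) (v : E3 → ℝ) : ℝ :=
  ∫ x in ann P.R, Real.exp (P.th v x) * MhSq P.g P.k (P.th v) x / P.y v x * vol P.g x

/-- `X2(s) = ∫_{|x| ≥ s} |x|^{-2} y²`. -/
noncomputable def X2 (P : Par) (v : E3 → ℝ) (s : ℝ) : ℝ :=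
  ∫ x in {x : E3 | s ≤ ‖x‖} ∩ ann P.R, P.y v x ^ 2 / ‖x‖ ^ 2 * vol P.g x

/-- `X3(s) = ∫_{|x| ≥ s} e^θ |x|^{-2} y³`. -/
noncomputable def X3 (P : Par) (v : E3 → ℝ) (s : ℝ) : ℝ :=
  ∫ x in {x : E3 | s ≤ ‖x‖} ∩ ann P.R, Real.exp (P.th v x) * P.y v x ^ 3 / ‖x‖ ^ 2 * vol P.g x

/-- The transition error `Err = ∫_{v1 ≤ v ≤ 2 v1} e^{-3θ} Ψ(C s)`, `Ψ(x) = x^{b+1} |log x|`. -/
noncomputable def Err (P : Par) (v : E3 → ℝ) : ℝ :=
  ∫ x in {x : E3 | P.v1 ≤ v x ∧ v x ≤ 2 * P.v1} ∩ ann P.R, Real.exp (-3 * P.th v x) *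
    ((P.CC v * P.s v x) ^ (P.b (v x) + 1) * |Real.log (P.CC v * P.s v x)|) * vol P.g x

/-- Metric volume of `{θ < t}`. -/
noncomputable def Vol (P : Par) (v : E3 → ℝ) (t : ℝ) : ℝ := ∫ _x in {x : E3 | P.th v x < t} ∩ ann P.R, vol P.g _x

/-- `∫_{s ≤ θ < t} y^{1+q}`. -/
noncomputable def BB (P : Par) (v : E3 → ℝ) (s t : ℝ) : ℝ :=
  ∫ x in {x : E3 | s ≤ P.th v x ∧ P.th v x < t} ∩ ann P.R, P.y v x ^ (1 + P.q) * vol P.g x

end Par

end UMB
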