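import Pool.Agent.Lib.UMB.SS.Red2
import Pool.Agent.Lib.UMB.Far.H4c

set_option autoImplicit false

/-!
# UMB: the Willmore energy of the positive part of `H - |tr_Σ h|` on the unit sphere
-/

open Filter Topology Set MeasureTheory
open scoped ContDiff

namespace UMB

open Pool.Agent.Lib.PenroseSph (E3 Tens pd trg energy momNorm trLevel meanCurv gradNorm S2 sm integrable_S2)

/-- `∫_Σ ((H - |tr_Σ h|)⁺)² dA` for the unit sphere `Σ`; `dA = |∇|x|| √det g dσ` is the area measure of `g` on `Σ`. -/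
noncomputable def wil (g h : Tens) : ℝ :=
  ∫ n : Metric.sphere (0 : E3) 1, max (meanCurv g (fun y => ‖y‖) (n : E3) - |sphTr g h n|) 0 ^ 2 *
    (gradNorm g (fun y => ‖y‖) (n : E3) * Real.sqrt (g n).det) ∂(volume : Measure E3).toSphere

variable {g h : Tens} {a : ℝ}

theorem wil_nonneg (g h : Tens) : 0 ≤ wil g h := by
  unfold wil
  apply integral_nonneg
  intro n
  have h1 : 0 ≤ gradNorm g (fun y => ‖y‖) (n : E3) := Real.sqrt_nonneg _
  positivity

theorem wil_eq_zero (hS : ∀ x : E3, ‖x‖ = 1 → meanCurv g (fun y => ‖y‖) x ≤ |sphTr g h x|) : wil g h = 0 := by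
  unfold wil
  have : ∀ n : Metric.sphere (0 : E3) 1, max (meanCurv g (fun y => ‖y‖) (n : E3) - |sphTr g h n|) 0 ^ 2 *
    (gradNorm g (fun y => ‖y‖) (n : E3) * Real.sqrt (g n).det) = 0 := by
    intro n
    have hn : ‖(n : E3)‖ = 1 := mem_sphere_zero_iff_norm.1 n.2
    rw [max_eq_right (by linarith [hS _ hn])]
    ring
  simp [this]

theorem wil_ray {f : E3 → ℝ} (ha : a < 1) (hf : ∀ x : E3, a < ‖x‖ → x ≠ 0 → ContinuousAt f x) :
    Continuous (fun n : S2 => f (n : E3)) := by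
  have h1 : ContinuousOn f {x : E3 | max a 0 < ‖x‖} := by
    intro x hx
    have hx' : max a 0 < ‖x‖ := hx
    refine (hf x (lt_of_le_of_lt (le_max_left _ _) hx') ?_).continuousWithinAt
    intro h0
    rw [h0, norm_zero] at hx'
    exact absurd (le_max_right a 0) (not_le.2 hx')
  have h2 := Pool.Agent.Lib.PenroseSph.cont_ray (le_max_right a 0) h1 (max_lt ha one_pos)
  simpa using h2

theorem wil_mc (hg : SmM g a) (ha : a < 1) : Continuous (fun n : S2 => meanCurv g (fun y => ‖y‖) (n : E3)) :=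
  wil_ray ha fun x hx hx0 => (Far.h4c_mc hg hx hx0).continuousAt

theorem wil_tr (hg : SmM g a) (ha : a < 1) (hh : SmT h a) : Continuous (fun n : S2 => sphTr g h (n : E3)) :=
  wil_ray ha fun x hx hx0 => (hg.sphTr_at hh hx hx0).continuousAt

theorem wil_ad (hg : SmM g a) (ha : a < 1) :
    Continuous (fun n : S2 => gradNorm g (fun y => ‖y‖) (n : E3) * Real.sqrt (g (n : E3)).det) := by
  refine (wil_ray ha fun x hx hx0 => Far.h4c_area hg hx hx0).congr fun n => ?_
  unfold Far.areaD vol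
  ring

/-- The Willmore energy of the reduction tensor. -/
theorem wil_kS (hg : SmM g a) (ha : a < 1) (hh : SmT h a) (hhs : ∀ x : E3, a < ‖x‖ → (h x).IsSymm)
    (hO : ∀ x : E3, 1 ≤ ‖x‖ → OneSign g h x) :
    ∃ C : ℝ, 0 ≤ C ∧ ∀ s : ℝ, 0 < s → s ≤ 1 → wil g (kS g h s) ≤ wil g h + C * s := by
  set A : S2 → ℝ := fun n => gradNorm g (fun y => ‖y‖) (n : E3) * Real.sqrt (g (n : E3)).det with hA
  set w : S2 → ℝ := fun n => max (meanCurv g (fun y => ‖y‖) (n : E3) - |sphTr g h n|) 0 with hw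
  have cA : Continuous A := wil_ad hg ha
  have cw : Continuous w := ((wil_mc hg ha).sub (wil_tr hg ha hh).abs).max continuous_const
  have hA0 : ∀ n, 0 ≤ A n := fun n => mul_nonneg (Real.sqrt_nonneg _) (Real.sqrt_nonneg _)
  have hw0 : ∀ n, 0 ≤ w n := fun n => le_max_right _ _
  refine ⟨∫ n : S2, (4 * w n + 4) * A n ∂sm, integral_nonneg fun n => mul_nonneg (by linarith [hw0 n]) (hA0 n),
    fun s hs hs1 => ?_⟩
  have ck : Continuous (fun n : S2 => max (meanCurv g (fun y => ‖y‖) (n : E3) - |sphTr g (kS g h s) n|) 0) :=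
    ((wil_mc hg ha).sub (wil_tr hg ha (kS_smooth hs hg hh)).abs).max continuous_const
  have i1 : Integrable (fun n : S2 => w n ^ 2 * A n) sm := integrable_S2 ((cw.pow 2).mul cA)
  have i2 : Integrable (fun n : S2 => (4 * w n + 4) * A n) sm :=
    integrable_S2 (((continuous_const.mul cw).add continuous_const).mul cA)
  have e1 : wil g h = ∫ n : S2, w n ^ 2 * A n ∂sm := rfl
  rw [e1, mul_comm, ← integral_const_mul, ← integral_add i1 (i2.const_mul s)]
  unfold wil
  refine integral_mono (integrable_S2 ((ck.pow 2).mul cA)) (i1.add (i2.const_mul s)) fun n => ?_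
  have hn : ‖(n : E3)‖ = 1 := mem_sphere_zero_iff_norm.1 n.2
  have hxa : a < ‖(n : E3)‖ := by rw [hn]; exact ha
  have hx0 : (n : E3) ≠ 0 := by
    intro h0
    rw [h0, norm_zero] at hn
    exact zero_ne_one hn
  have h1 := sphTr_kS_abs hs (hO _ hn.ge) (hg.symm _ hxa) (hhs _ hxa) (hg.pos _ hxa) hx0
  have h2 := le_abs_self (sphTr g (kS g h s) (n : E3))
  have h3 : max (meanCurv g (fun y => ‖y‖) (n : E3) - |sphTr g (kS g h s) n|) 0 ≤ w n + 2 * s := by
    apply max_le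
    · have := le_max_left (meanCurv g (fun y => ‖y‖) (n : E3) - |sphTr g h n|) 0
      simp only [hw]
      linarith
    · linarith [hw0 n]
  have h4 : 0 ≤ max (meanCurv g (fun y => ‖y‖) (n : E3) - |sphTr g (kS g h s) n|) 0 := le_max_right _ _
  show max (meanCurv g (fun y => ‖y‖) (n : E3) - |sphTr g (kS g h s) n|) 0 ^ 2 * A n ≤
    w n ^ 2 * A n + s * ((4 * w n + 4) * A n)
  have h5 : max (meanCurv g (fun y => ‖y‖) (n : E3) - |sphTr g (kS g h s) n|) 0 ^ 2 ≤ (w n + 2 * s) ^ 2 :=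
    pow_le_pow_left₀ h4 h3 2
  have h6 : (w n + 2 * s) ^ 2 ≤ w n ^ 2 + s * (4 * w n + 4) := by nlinarith [hw0 n]
  have h7 := mul_le_mul_of_nonneg_right (h5.trans h6) (hA0 n)
  nlinarith [h7]

/-- The mean curvature of the unit sphere is bounded. -/
theorem mc_bound (hg : SmM g a) (ha : a < 1) :
    ∃ η0 : ℝ, 0 ≤ η0 ∧ ∀ x : E3, ‖x‖ = 1 → meanCurv g (fun y => ‖y‖) x ≤ η0 := by
  obtain ⟨C, hC⟩ := (isCompact_univ (X := S2)).exists_bound_of_continuousOn (wil_mc hg ha).continuousOn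
  refine ⟨max C 0, le_max_right _ _, fun x hx => ?_⟩
  have h1 := hC ⟨x, mem_sphere_zero_iff_norm.2 hx⟩ (mem_univ _)
  rw [Real.norm_eq_abs] at h1
  exact (le_abs_self _).trans (h1.trans (le_max_left _ _))

/-- The reduction, with any bound `η0` of the mean curvature. -/
theorem reduction_wil (hg : SmM g a) (ha : a < 1) (hh : SmT h a) (hhs : ∀ x : E3, a < ‖x‖ → (h x).IsSymm)
    (hdec : ∀ x : E3, 1 ≤ ‖x‖ → momNorm g h x ≤ energy g h x)
    (hO : ∀ x : E3, 1 ≤ ‖x‖ → OneSign g h x) {η0 : ℝ} (h0 : 0 ≤ η0)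
    (hS : ∀ x : E3, ‖x‖ = 1 → meanCurv g (fun y => ‖y‖) x ≤ η0) {K : ℝ}
    (hK : ∀ x : E3, 1 ≤ ‖x‖ → ∀ i j, |h x i j| ≤ K / ‖x‖ ^ 2) {R0 δ s : ℝ} (hs : 0 < s)
    (hF : ∀ r : ℝ, R0 ≤ r → trFlux g h r ≤ δ) (hR0 : 1 ≤ R0) :
    Adm g (kS g h s) a K (etaS g h s) (η0 + 2 * s) R0 δ where
  smooth := kS_smooth hs hg hh
  symm := fun x hx => (hhs x hx).smul _
  bound := fun x hx i j => (kS_abs_le hs i j).trans (hK x hx i j)
  two := fun x hx => two_kS hs (hO x hx) (hg.symm x (by linarith)) (hg.pos x (by linarith))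
  cont_err := fun x hx => (etaS_cont hs hg hh (lt_of_lt_of_le ha hx)).continuousWithinAt
  err_nonneg := fun x _ => etaS_nonneg hs
  err0_nonneg := by positivity
  dec := fun x hx => dec_kS hs hg hh (lt_of_lt_of_le ha hx) (hhs x (lt_of_lt_of_le ha hx)) (hO x hx) (hdec x hx)
  horizon := fun x hx => by
    have hx1 : 1 ≤ ‖x‖ := hx.ge
    have hxa := lt_of_lt_of_le ha hx1
    have hx0 : x ≠ 0 := by
      intro h0
      rw [h0, norm_zero] at hx
      exact one_ne_zero hx.symm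
    have h1 := sphTr_kS_abs hs (hO x hx1) (hg.symm x hxa) (hhs x hxa) (hg.pos x hxa) hx0
    have h2 := hS x hx
    have h3 := abs_nonneg (sphTr g h x)
    linarith
  flux := fun r hr => by
    refine (trFlux_mono hg ha hh (kS_smooth hs hg hh) (hR0.trans hr) fun x _ => ?_).trans (hF r hr)
    rw [sphTr_kS, abs_mul]
    have := abs_psi_le hs (trg g h x)
    nlinarith [abs_nonneg (sphTr g h x)]

end UMB
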