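import Pool.Agent.Lib.PenroseSph.Defs

set_option autoImplicit false

/-!
# UMB: initial data whose second fundamental form has plane traces of one sign

Definitions for the Penrose inequality for initial data `(g, h)` on the exterior `{1 ≤ |x|}` of the unit ball such that at
every point the traces of `h` over the tangent planes do not change sign (`OneSign`).
-/

open Filter Topology Set MeasureTheory
open scoped ContDiff

namespace UMB

open Pool.Agent.Lib.PenroseSph (E3 Tens pd trg energy momNorm trLevel)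

/-- The quadratic form `h(v, v)` at the point `x`. -/
def quad (h : Tens) (x : E3) (v : Fin 3 → ℝ) : ℝ := ∑ i, ∑ j, h x i j * v i * v j

/-- The traces of `h` over the tangent planes at `x` do not change sign. The trace over the plane with `g`-unit normal `v`
is `tr h - h(v, v)`. -/
def OneSign (g h : Tens) (x : E3) : Prop :=
  (∀ v : Fin 3 → ℝ, 0 ≤ trg g h x * quad g x v - quad h x v) ∨
    ∀ v : Fin 3 → ℝ, trg g h x * quad g x v - quad h x v ≤ 0

/-- Initial data: `g` and `h` are smooth and symmetric, `g` is positive definite, on `{a < |x|}`, `a < 1`;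
`g - δ = O(|x|⁻¹)`, `∂g = O(|x|⁻²)`, `h = O(|x|⁻²)` and `J` is integrable; the dominant energy condition `|J| ≤ μ` holds
on `{1 ≤ |x|}`. -/
structure Data (g h : Tens) (a : ℝ) : Prop where
  lt : a < 1
  smooth_g : ∀ i j, ContDiffOn ℝ ∞ (fun x => g x i j) {x : E3 | a < ‖x‖}
  smooth_h : ∀ i j, ContDiffOn ℝ ∞ (fun x => h x i j) {x : E3 | a < ‖x‖}
  symm_g : ∀ x : E3, a < ‖x‖ → (g x).IsSymm
  symm_h : ∀ x : E3, a < ‖x‖ → (h x).IsSymm
  pos : ∀ x : E3, a < ‖x‖ → ∀ v : Fin 3 → ℝ, v ≠ 0 → 0 < quad g x v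
  decay : ∃ C : ℝ, ∀ x : E3, 1 ≤ ‖x‖ → ∀ i j k,
    |g x i j - (1 : Matrix (Fin 3) (Fin 3) ℝ) i j| ≤ C / ‖x‖ ∧ |pd k (fun y => g y i j) x| ≤ C / ‖x‖ ^ 2 ∧
      |h x i j| ≤ C / ‖x‖ ^ 2
  int_J : IntegrableOn (momNorm g h) {x : E3 | 1 ≤ ‖x‖}
  dec : ∀ x : E3, 1 ≤ ‖x‖ → momNorm g h x ≤ energy g h x

/-- The trace of `h` over the tangent plane at `x` of the coordinate sphere through `x`. -/
noncomputable def sphTr (g h : Tens) (x : E3) : ℝ := trLevel g h (fun y => ‖y‖) x

/-- The data are tame at infinity: the traces of `h` over the coordinate spheres satisfy `|tr_S h| ≤ c |tr h| + o(|x|⁻²)`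
with a constant `c < 2`. (Under `OneSign` always `|tr_S h| ≤ 2 |tr h|`. The condition holds if `h = o(|x|⁻²)`, if `h` is
umbilic (`c = 2/3`), if `h ≥ 0` or `h ≤ 0` (`c = 1`).) -/
def Tame (g h : Tens) : Prop := ∃ c : ℝ, c < 2 ∧ ∀ ε : ℝ, 0 < ε → ∃ R : ℝ, ∀ x : E3, R ≤ ‖x‖ →
  |sphTr g h x| ≤ c * |trg g h x| + ε / ‖x‖ ^ 2

/-- `F` is a bounded open set with smooth boundary which contains the open unit ball, so `S = ∂F` is a smooth closed surface
which encloses the unit sphere (`S` may touch the unit sphere or be equal to it). -/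
structure Encloses (F : Set E3) : Prop where
  isOpen : IsOpen F
  bounded : Bornology.IsBounded F
  ball : Metric.ball (0 : E3) 1 ⊆ F
  smooth : ∀ x ∈ frontier F, ∃ w : E3 → ℝ, ContDiffAt ℝ ∞ w x ∧ fderiv ℝ w x ≠ 0 ∧ ∀ᶠ y in 𝓝 x, (y ∈ F ↔ w y < 0)

/-- The `g`-area of `∂F` is at most `c`: the area is the supremum of the fluxes `∫_F div X` of the `C¹` vector fields `X`
with compact support in `{a < |x|}` and length at most one. -/
def AreaLE (g : Tens) (a : ℝ) (F : Set E3) (c : ℝ) : Prop := ∀ X : Fin 3 → E3 → ℝ, (∀ i, ContDiff ℝ 1 (X i)) →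
  (∀ i, HasCompactSupport (X i)) → (∀ i, tsupport (X i) ⊆ {x : E3 | a < ‖x‖}) →
  (∀ x : E3, a < ‖x‖ → quad g x (fun i => X i x) ≤ 1) →
  ∫ x in F, ∑ i, pd i (fun y => Real.sqrt (g y).det * X i y) x ≤ c

/-- `A` is the least area needed to enclose the unit sphere: the infimum of the areas of the smooth closed surfaces which
enclose it. -/
def LeastArea (g : Tens) (a A : ℝ) : Prop := IsGLB {c : ℝ | ∃ F : Set E3, Encloses F ∧ AreaLE g a F c} A

end UMB
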