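import Pool.Agent.Lib.UMB.SS.Final
import Pool.Agent.Lib.UMB.Asm.Core

set_option autoImplicit false

/-!
# UMB: the theorems
-/

open Filter Topology Set MeasureTheory
open scoped ContDiff

namespace UMB

open Pool.Agent.Lib.PenroseSph (E3 Tens pd trg energy momNorm trLevel meanCurv gradNorm admFlux admMom)

/-- The flux of `|tr_S h|` is nonnegative. -/
theorem trFlux_nonneg (g h : Tens) (r : ℝ) : 0 ≤ trFlux g h r := by
  unfold trFlux
  exact integral_nonneg fun n => by positivity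

/-- **The inequality for every sphere, without a condition at infinity.** `wil g h = ∫_Σ ((H - |tr_Σ h|)⁺)² dA`, `φ` is at least
the upper limit of `∫_{S_r} |tr_S h|`. -/
theorem penroseW {g h : Tens} {a E A φ : ℝ} (hD : Data g h a) (hs : ∀ x : E3, 1 ≤ ‖x‖ → OneSign g h x)
    (hE : Tendsto (admFlux g) atTop (𝓝 E)) (hA : LeastArea g a A)
    (hφ : ∀ ε : ℝ, 0 < ε → ∀ᶠ r in atTop, trFlux g h r ≤ φ + ε) (hW : wil g h < 16 * Real.pi) :
    Real.sqrt (A / (16 * Real.pi)) * (1 - wil g h / (16 * Real.pi)) ≤ E + φ / (8 * Real.pi) := by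
  have hpi := Real.pi_pos
  have hpi3 := Real.pi_gt_three
  have hφ0 : 0 ≤ φ := by
    refine le_of_forall_pos_le_add fun ε hε => ?_
    obtain ⟨r, hr⟩ := (hφ ε hε).exists
    exact (trFlux_nonneg g h r).trans hr
  have hW0 := wil_nonneg g h
  obtain ⟨C, hC⟩ := hD.decay
  have hK : ∀ x : E3, 1 ≤ ‖x‖ → ∀ i j, |h x i j| ≤ C / ‖x‖ ^ 2 := fun x hx i j => (hC x hx i j 0).2.2
  obtain ⟨η0, hred⟩ := reduction hD hs hK
  obtain ⟨Cw, hCw, hwil⟩ := wil_kS hD.smM hD.lt hD.smooth_h hD.symm_h hs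
  set B := Real.sqrt (A / (16 * Real.pi)) with hB
  have hB0 : 0 ≤ B := Real.sqrt_nonneg _
  -- the inequality with a slightly larger Willmore energy and flux
  have key : ∀ ρ : ℝ, 0 < ρ → wil g h + ρ < 16 * Real.pi →
      B * (1 - (wil g h + ρ) / (16 * Real.pi)) ≤ E + (φ + ρ) / (8 * Real.pi) + 2 * ρ := by
    intro ρ hρ hρ2
    have hcore := core' (K := C) (δ := ρ) (Φ := φ + ρ) (w := wil g h + ρ) hD.toAF hE hρ (by linarith) (by linarith) hρ2
    obtain ⟨R1, hR1⟩ := eventually_atTop.1 (hφ ρ hρ)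
    obtain ⟨L, R, hL, hR, hmain⟩ := hcore (max R1 1)
    have hlim : Tendsto (fun s : ℝ => L * Real.sqrt (∫ x in {x : E3 | 1 ≤ ‖x‖ ∧ ‖x‖ ≤ R}, (etaS g h s x) ^ 2))
        (𝓝[>] 0) (𝓝 0) := by
      have h2 := (Real.continuous_sqrt.tendsto 0).comp (etaS_tendsto hD R)
      rw [Real.sqrt_zero] at h2
      have h3 := h2.const_mul L
      simpa using h3
    have hlim2 : Tendsto (fun s : ℝ => Cw * s) (𝓝[>] 0) (𝓝 0) := by
      have : Tendsto (fun s : ℝ => Cw * s) (𝓝 0) (𝓝 (Cw * 0)) := (continuous_const.mul continuous_id).tendsto 0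
      rw [mul_zero] at this
      exact this.mono_left nhdsWithin_le_nhds
    have hone : ∀ᶠ e in 𝓝[>] (0 : ℝ), e ≤ 1 :=
      (Filter.Eventually.filter_mono nhdsWithin_le_nhds
        ((gt_mem_nhds (show (0:ℝ) < 1 by norm_num)).mono fun x hx => hx.le))
    obtain ⟨s, ⟨⟨hs1, hs2⟩, hs3⟩, hs0⟩ := (((hlim.eventually (gt_mem_nhds hρ)).and
      (hlim2.eventually (gt_mem_nhds hρ))).and hone).and (self_mem_nhdsWithin : ∀ᶠ s in 𝓝[>] (0 : ℝ), 0 < s) |>.exists
    have hwk : wil g (kS g h s) ≤ wil g h + ρ := (hwil s hs0 hs3).trans (by linarith)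
    obtain ⟨F, c, hF1, hF2, hF3⟩ := hmain (kS g h s) (etaS g h s) (η0 + 2 * s) (φ + ρ) (by linarith) le_rfl
      (hred (max R1 1) (φ + ρ) s hs0 (fun r hr => hR1 r (le_trans (le_max_left _ _) hr)) (le_max_right _ _)) hwk
    have hAc : A ≤ c := hA.1 ⟨F, hF1, hF2⟩
    have h4 : B ≤ Real.sqrt (c / (16 * Real.pi)) := by
      apply Real.sqrt_le_sqrt
      gcongr
    have h5 : 0 ≤ 1 - (wil g h + ρ) / (16 * Real.pi) := by
      rw [sub_nonneg, div_le_one (by positivity)]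
      exact hρ2.le
    have h6 := mul_le_mul_of_nonneg_right h4 h5
    linarith
  -- `ρ → 0`
  have l1 : Tendsto (fun ρ : ℝ => B * (1 - (wil g h + ρ) / (16 * Real.pi))) (𝓝[>] 0)
      (𝓝 (B * (1 - (wil g h + 0) / (16 * Real.pi)))) := by
    apply Tendsto.mono_left _ nhdsWithin_le_nhds
    exact (Continuous.tendsto (by fun_prop) 0)
  have l2 : Tendsto (fun ρ : ℝ => E + (φ + ρ) / (8 * Real.pi) + 2 * ρ) (𝓝[>] 0)
      (𝓝 (E + (φ + 0) / (8 * Real.pi) + 2 * 0)) := by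
    apply Tendsto.mono_left _ nhdsWithin_le_nhds
    exact (Continuous.tendsto (by fun_prop) 0)
  have h7 : ∀ᶠ ρ in 𝓝[>] (0 : ℝ), B * (1 - (wil g h + ρ) / (16 * Real.pi)) ≤ E + (φ + ρ) / (8 * Real.pi) + 2 * ρ := by
    have h8 : Ioo (0:ℝ) (16 * Real.pi - wil g h) ∈ 𝓝[>] (0:ℝ) := Ioo_mem_nhdsGT (by linarith)
    filter_upwards [h8] with ρ hρ
    exact key ρ hρ.1 (by linarith [hρ.2])
  have h9 := le_of_tendsto_of_tendsto l1 l2 h7
  simpa using h9

/-- **The Penrose inequality for data whose second fundamental form has plane traces of one sign** (statement of `Stmt.lean`). -/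
theorem penrose {g h : Tens} {a E A : ℝ} (hD : Data g h a) (hs : ∀ x : E3, 1 ≤ ‖x‖ → OneSign g h x) (hT : Tame g h)
    (hS : ∀ x : E3, ‖x‖ = 1 → meanCurv g (fun y => ‖y‖) x ≤ |sphTr g h x|)
    (hE : Tendsto (admFlux g) atTop (𝓝 E)) (hA : LeastArea g a A) :
    (∀ i, Tendsto (admMom g h i) atTop (𝓝 0)) ∧ Real.sqrt (A / (16 * Real.pi)) ≤ E := by
  have hF := trFlux_tendsto_aux hD hs hT
  refine ⟨fun i => admMom_tendsto_aux hD hs hF i, ?_⟩
  have h0 := wil_eq_zero hS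
  have h1 := penroseW (φ := 0) hD hs hE hA (fun ε hε => by
    filter_upwards [hF.eventually (gt_mem_nhds hε)] with r hr
    linarith) (by rw [h0]; positivity)
  rw [h0] at h1
  simpa using h1

end UMB
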