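import Pool.Agent.Lib.UMB.Lin.Defs

set_option autoImplicit false

/-!
# UMB: the mollified operator (section 2.0)

`v` is given on the closed annulus `1 ≤ |x| ≤ R`; it is extended by `1` inside and by `0` outside (`ext`), mollified at
scale `d` (`vd`, gradient `qd`), and the coefficients `aa`, `bb` are smooth functions of `x`, `vd`, `qd`.
-/

open Filter Topology Set MeasureTheory
open scoped ContDiff

namespace UMB

open Pool.Agent.Lib.PenroseSph (E3 Tens pd)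

/-- The open annulus. -/
abbrev ann (R : ℝ) : Set E3 := UMB.Lin.Ann R

/-- The closed annulus. -/
abbrev cann (R : ℝ) : Set E3 := UMB.Lin.cAnn R

/-- The flat gradient. -/
noncomputable def D1 (w : E3 → ℝ) (x : E3) : Fin 3 → ℝ := fun i => pd i w x

/-- The flat matrix of second derivatives. -/
noncomputable def D2 (w : E3 → ℝ) (x : E3) : Matrix (Fin 3) (Fin 3) ℝ := fun i j => pd i (pd j w) x

/-- `S : B = S^ij B_ij`. -/
def tr2 (S B : Matrix (Fin 3) (Fin 3) ℝ) : ℝ := ∑ i, ∑ j, S i j * B i j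

/-- `|B|² = S^ik S^jl B_ij B_kl`. -/
def nsq (S B : Matrix (Fin 3) (Fin 3) ℝ) : ℝ := ∑ i, ∑ j, ∑ k, ∑ l, S i k * S j l * B i j * B k l

/-- `S(u, u) = S^ij u_i u_j`. -/
def q1 (S : Matrix (Fin 3) (Fin 3) ℝ) (u : Fin 3 → ℝ) : ℝ := ∑ i, ∑ j, S i j * u i * u j

/-- Euclidean square norm of a matrix. -/
def fsq (B : Matrix (Fin 3) (Fin 3) ℝ) : ℝ := ∑ i, ∑ j, B i j ^ 2

/-- Euclidean square norm of a vector. -/
def vsq (u : Fin 3 → ℝ) : ℝ := ∑ i, u i ^ 2

/-- Data of the operator: `G` the contravariant metric, `k` the two-tensor, `Gam i` the matrix `C^i_kl`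
(Christoffel symbols where `G` is the inverse of the metric), `p` the exponent as a function of the value, `eta` the
mollifier, `d` its scale, `eps` the regularisation. -/
structure OpData where
  a : ℝ
  R : ℝ
  p0 : ℝ
  eps : ℝ
  d : ℝ
  G : Tens
  k : Tens
  Gam : Fin 3 → Tens
  p : ℝ → ℝ
  eta : E3 → ℝ

/-- Admissible data of the operator. -/
structure OpData.Ok (D : OpData) : Prop where
  a_nonneg : 0 ≤ D.a
  a_lt : D.a < 1
  one_lt_R : 1 < D.R
  one_lt_p0 : 1 < D.p0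
  p0_le : D.p0 ≤ 2
  eps_pos : 0 < D.eps
  d_pos : 0 < D.d
  G_smooth : ∀ i j, ContDiffOn ℝ ∞ (fun x => D.G x i j) {x : E3 | D.a < ‖x‖}
  k_smooth : ∀ i j, ContDiffOn ℝ ∞ (fun x => D.k x i j) {x : E3 | D.a < ‖x‖}
  Gam_smooth : ∀ i k l, ContDiffOn ℝ ∞ (fun x => D.Gam i x k l) {x : E3 | D.a < ‖x‖}
  G_symm : ∀ x : E3, D.a < ‖x‖ → (D.G x).IsSymm
  G_pos : ∀ x : E3, D.a < ‖x‖ → ∀ u : Fin 3 → ℝ, u ≠ 0 → 0 < q1 (D.G x) u
  p_smooth : ContDiff ℝ ∞ D.p
  p_ge : ∀ z, D.p0 ≤ D.p z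
  p_le : ∀ z, D.p z ≤ 2
  eta_smooth : ContDiff ℝ ∞ D.eta
  eta_nonneg : ∀ x, 0 ≤ D.eta x
  eta_supp : ∀ x : E3, 1 ≤ ‖x‖ → D.eta x = 0
  eta_int : ∫ x : E3, D.eta x = 1

/-- Extension by the boundary values `1` and `0`. -/
noncomputable def ext (R : ℝ) (v : E3 → ℝ) (x : E3) : ℝ :=
  if ‖x‖ < 1 then 1 else if ‖x‖ ≤ R then v x else 0

/-- The mollifier at scale `d`. -/
noncomputable def OpData.etad (D : OpData) (x : E3) : ℝ := (D.d ^ 3)⁻¹ * D.eta (D.d⁻¹ • x)

/-- The mollified function `v_d`. -/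
noncomputable def OpData.vd (D : OpData) (v : E3 → ℝ) (x : E3) : ℝ := ∫ y, ext D.R v y * D.etad (x - y)

/-- The gradient `q_d` of the mollified function. -/
noncomputable def OpData.qd (D : OpData) (v : E3 → ℝ) (x : E3) : Fin 3 → ℝ := fun i =>
  ∫ y, ext D.R v y * pd i D.etad (x - y)

/-- `sqrt (G(q,q) + eps²)`. -/
noncomputable def OpData.Nd (D : OpData) (v : E3 → ℝ) (x : E3) : ℝ := Real.sqrt (q1 (D.G x) (D.qd v x) + D.eps ^ 2)

/-- The vector `n^i = G^ij q_j / N`. -/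
noncomputable def OpData.nn (D : OpData) (v : E3 → ℝ) (x : E3) : Fin 3 → ℝ := fun i =>
  (∑ j, D.G x i j * D.qd v x j) / D.Nd v x

/-- The leading coefficients `a^ij = G^ij + (p(v_d) - 2) n^i n^j`. -/
noncomputable def OpData.aa (D : OpData) (v : E3 → ℝ) : Tens := fun x => fun i j =>
  D.G x i j + (D.p (D.vd v x) - 2) * D.nn v x i * D.nn v x j

/-- The drift `b^i = - a^kl C^i_kl + (a^kl k_kl) n^i`. -/
noncomputable def OpData.bb (D : OpData) (v : E3 → ℝ) (x : E3) : Fin 3 → ℝ := fun i =>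
  - tr2 (D.aa v x) (D.Gam i x) + tr2 (D.aa v x) (D.k x) * D.nn v x i

/-- `v` solves the equation with its own mollified coefficients (values and all derivatives in the open annulus). -/
def OpData.Solves (D : OpData) (v : E3 → ℝ) : Prop :=
  ∀ x ∈ ann D.R, tr2 (D.aa v x) (D2 v x) + ∑ i, D.bb v x i * D1 v x i = 0

end UMB
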