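import Pool.Agent.Lib.UMB.Defs
import Pool.Agent.Lib.PenroseSph.System

set_option autoImplicit false

/-!
# UMB: the statement (frozen form of the hand-in)
-/

open Filter Topology Set MeasureTheory
open scoped ContDiff

namespace UMB

open Pool.Agent.Lib.PenroseSph (E3 Tens pd trg energy meanCurv admFlux admMom)

/-- The Penrose inequality for all initial data `(g, h)` on `{1 ≤ |x|}` for which the traces of `h` over the tangent planes
have one sign at each point (the sign may depend on the point). No symmetry is assumed. The unit sphere `Σ` satisfies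
`H ≤ |tr_Σ h|` (future and past apparent horizons, weakly trapped surfaces; it need not be outermost or outer minimising). -/
theorem main {g h : Tens} {a E A : ℝ} (hD : Data g h a) (hs : ∀ x : E3, 1 ≤ ‖x‖ → OneSign g h x) (hT : Tame g h)
    (hS : ∀ x : E3, ‖x‖ = 1 → meanCurv g (fun y => ‖y‖) x ≤ |sphTr g h x|)
    (hE : Tendsto (admFlux g) atTop (𝓝 E)) (hA : LeastArea g a A) :
    (∀ i, Tendsto (admMom g h i) atTop (𝓝 0)) ∧ Real.sqrt (A / (16 * Real.pi)) ≤ E := by
  sorry

end UMB
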